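import Mathlib
import Pool.Agent.X262.Lamp

set_option autoImplicit false

/-!
The conjugacy depth function of `ℤ ≀ ℤ^k` is at most `log(n)^(n^(2k))`; in fact it is at most
`(C n)^(C n^k)`.
-/

namespace Pool.Agent.Results.MP_3fb3e0_al.IntegerLamps

open Pool.Agent.X262.Lamp

theorem result (k : ℕ) (hk : 1 ≤ k) (S : Set (W ℤ (Fin k → ℤ)))
    (hS : S.Finite) (_hgen : Subgroup.closure S = ⊤) :
    ∃ C : ℕ, 0 < C ∧ ∀ n : ℕ, 1 ≤ n →
      conjDepth S n ≤ (((C * n) ^ (C * n ^ k) : ℕ) : ℕ∞) ∧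
      (((C * n) ^ (C * n ^ k) : ℕ) : ℝ) ≤ C * Real.log (C * n) ^ ((C * n) ^ (2 * k)) := by
  obtain ⟨K, hK, hball⟩ := bd_ball (k := k) Int.natAbs rfl Int.natAbs_add_le
    Int.natAbs_neg S hS
  refine ⟨(13 * K) ^ k + k + 13 * K + 16, by positivity, ?_⟩
  intro n hn
  set C := (13 * K) ^ k + k + 13 * K + 16 with hC
  constructor
  · unfold conjDepth
    refine iSup_le fun x => iSup_le fun y => iSup_le fun hx => iSup_le fun hy =>
      iSup_le fun hxy => ?_
    have : NeZero (2 * (K * n) + 1) := ⟨by omega⟩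
    refine (sep Int.natAbs rfl Int.natAbs_add_le Int.natAbs_neg (K * n) x y
      (hball n x hx) (hball n y hy) hxy (Int.castAddHom (ZMod (2 * (K * n) + 1))) ?_).trans ?_
    · intro u hu h
      have h1 : ((2 * (K * n) + 1 : ℕ) : ℤ) ∣ u := by
        rw [← ZMod.intCast_zmod_eq_zero_iff_dvd]; exact h
      apply Int.eq_zero_of_abs_lt_dvd h1
      rw [Int.abs_eq_natAbs]
      exact_mod_cast Nat.lt_succ_of_le hu
    · rw [Nat.card_zmod]
      norm_cast
      set M := 12 * (K * n) + 1 with hM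
      have hKn : 1 ≤ K * n := Nat.mul_pos hK hn
      have hM1 : M ≤ 13 * K * n := by
        rw [hM]
        linarith
      have hq1 : 2 * (K * n) + 1 ≤ 13 * K * n := by linarith
      have h1 : 13 * K * n ≤ C * n := Nat.mul_le_mul_right _ (by omega)
      have h2 : M ^ k + k ≤ C * n ^ k := by
        have h3 : M ^ k ≤ (13 * K) ^ k * n ^ k := by
          rw [← mul_pow]; exact Nat.pow_le_pow_left hM1 k
        have h4 : k ≤ k * n ^ k := Nat.le_mul_of_pos_right _ (by positivity)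
        have h5 : ((13 * K) ^ k + k) * n ^ k ≤ C * n ^ k := Nat.mul_le_mul_right _ (by omega)
        calc M ^ k + k ≤ (13 * K) ^ k * n ^ k + k * n ^ k := by omega
          _ = ((13 * K) ^ k + k) * n ^ k := by ring
          _ ≤ C * n ^ k := h5
      calc (2 * (K * n) + 1) ^ M ^ k * M ^ k
          ≤ (13 * K * n) ^ M ^ k * (13 * K * n) ^ k :=
            Nat.mul_le_mul (Nat.pow_le_pow_left hq1 _) (Nat.pow_le_pow_left hM1 _)
        _ = (13 * K * n) ^ (M ^ k + k) := (pow_add _ _ _).symm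
        _ ≤ (C * n) ^ (M ^ k + k) := Nat.pow_le_pow_left h1 _
        _ ≤ (C * n) ^ (C * n ^ k) := Nat.pow_le_pow_right (by nlinarith) h2
  · have hC16 : 16 ≤ C := by omega
    have hCn : (16 : ℝ) ≤ (C : ℝ) * n := by
      have h1 : 16 ≤ C * n := by nlinarith
      exact_mod_cast h1
    have hpos : (0 : ℝ) < (C : ℝ) * n := by linarith
    have hlog : Real.exp 1 ≤ Real.log (C * n) := by
      have h1 : Real.log 16 ≤ Real.log (C * n) := Real.log_le_log (by norm_num) hCn
      have h2 : Real.log 16 = 4 * Real.log 2 := by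
        rw [show (16 : ℝ) = 2 ^ 4 by norm_num, Real.log_pow]; norm_num
      have h3 := Real.log_two_gt_d9
      have h4 := Real.exp_one_lt_d9
      linarith
    have hle : ((C * n ^ k : ℕ) : ℝ) * Real.log (C * n) ≤ (((C * n) ^ (2 * k) : ℕ) : ℝ) := by
      have h1 : Real.log (C * n) ≤ C * n := (Real.log_le_sub_one_of_pos hpos).trans (by linarith)
      have h2 : C * n ^ k * (C * n) ≤ (C * n) ^ (2 * k) := by
        have h3 : n ^ (k + 1) ≤ n ^ (2 * k) := Nat.pow_le_pow_right hn (by omega)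
        have h4 : C ^ 2 ≤ C ^ (2 * k) := Nat.pow_le_pow_right (by omega) (by omega)
        calc C * n ^ k * (C * n) = C ^ 2 * n ^ (k + 1) := by ring
          _ ≤ C ^ (2 * k) * n ^ (2 * k) := Nat.mul_le_mul h4 h3
          _ = (C * n) ^ (2 * k) := (mul_pow _ _ _).symm
      calc ((C * n ^ k : ℕ) : ℝ) * Real.log (C * n) ≤ ((C * n ^ k : ℕ) : ℝ) * (C * n) :=
            mul_le_mul_of_nonneg_left h1 (by positivity)
        _ = ((C * n ^ k * (C * n) : ℕ) : ℝ) := by push_cast; ring
        _ ≤ (((C * n) ^ (2 * k) : ℕ) : ℝ) := by exact_mod_cast h2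
    calc (((C * n) ^ (C * n ^ k) : ℕ) : ℝ) = ((C : ℝ) * n) ^ (C * n ^ k) := by push_cast; ring
      _ = Real.exp (((C * n ^ k : ℕ) : ℝ) * Real.log (C * n)) := by
          rw [Real.exp_nat_mul, Real.exp_log hpos]
      _ ≤ Real.exp (((C * n) ^ (2 * k) : ℕ) : ℝ) := Real.exp_le_exp.mpr hle
      _ = (Real.exp 1) ^ ((C * n) ^ (2 * k)) := by
          rw [← Real.exp_nat_mul, mul_one]
      _ ≤ Real.log (C * n) ^ ((C * n) ^ (2 * k)) :=
          pow_le_pow_left₀ (Real.exp_pos 1).le hlog _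
      _ = 1 * Real.log (C * n) ^ ((C * n) ^ (2 * k)) := (one_mul _).symm
      _ ≤ C * Real.log (C * n) ^ ((C * n) ^ (2 * k)) := by
          apply mul_le_mul_of_nonneg_right
          · have : 1 ≤ C := by omega
            exact_mod_cast this
          · apply pow_nonneg
            exact (Real.exp_pos 1).le.trans hlog

end Pool.Agent.Results.MP_3fb3e0_al.IntegerLamps
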