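import Mathlib
import Pool.Agent.X262.Lamp

set_option autoImplicit false

/-!
The conjugacy depth function of `F_p ≀ ℤ^k` is at most `2^(n^k)`.
-/

namespace Pool.Agent.Results.MP_3fb3e0_al.PrimeLamps

open Pool.Agent.X262.Lamp

theorem result (p : ℕ) (hp : p.Prime) (k : ℕ) (hk : 1 ≤ k) (S : Set (W (ZMod p) (Fin k → ℤ)))
    (hS : S.Finite) (_hgen : Subgroup.closure S = ⊤) :
    ∃ C : ℕ, 0 < C ∧ ∀ n : ℕ, conjDepth S n ≤ ((C * 2 ^ ((C * n) ^ k) : ℕ) : ℕ∞) := by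
  have : NeZero p := ⟨hp.ne_zero⟩
  obtain ⟨K, hK, hball⟩ := bd_ball (k := k) (fun _ : ZMod p => 0) rfl (fun _ _ => le_rfl)
    (fun _ => rfl) S hS
  refine ⟨(p + 1) * (13 * K), by positivity, ?_⟩
  intro n
  unfold conjDepth
  refine iSup_le fun x => iSup_le fun y => iSup_le fun hx => iSup_le fun hy => iSup_le fun hxy => ?_
  refine (sep (fun _ : ZMod p => 0) rfl (fun _ _ => le_rfl) (fun _ => rfl) (K * n) x y
    (hball n x hx) (hball n y hy) hxy (AddMonoidHom.id (ZMod p)) (fun u _ h => h)).trans ?_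
  rw [Nat.card_zmod]
  norm_cast
  rcases Nat.eq_zero_or_pos n with rfl | hn
  · simp only [mul_zero, zero_add, one_pow, pow_one, mul_one]
    rw [zero_pow (by omega), pow_zero, mul_one]
    nlinarith
  · set M := 12 * (K * n) + 1 with hM
    have hM1 : M ≤ 13 * K * n := by
      have : 1 ≤ K * n := Nat.mul_pos hK hn
      rw [hM]
      linarith
    have h1 : p ^ M ^ k * M ^ k ≤ 2 ^ ((p + 1) * M ^ k) := by
      have h2 : p ^ M ^ k ≤ (2 ^ p) ^ M ^ k := Nat.pow_le_pow_left Nat.lt_two_pow_self.le _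
      have h3 : M ^ k ≤ 2 ^ M ^ k := Nat.lt_two_pow_self.le
      calc p ^ M ^ k * M ^ k ≤ (2 ^ p) ^ M ^ k * 2 ^ M ^ k := Nat.mul_le_mul h2 h3
        _ = 2 ^ ((p + 1) * M ^ k) := by rw [← pow_mul, ← pow_add]; ring_nf
    have h2 : (p + 1) * M ^ k ≤ ((p + 1) * (13 * K) * n) ^ k := by
      rw [mul_assoc (p + 1), mul_pow]
      apply Nat.mul_le_mul
      · calc p + 1 = (p + 1) ^ 1 := (pow_one _).symm
          _ ≤ (p + 1) ^ k := Nat.pow_le_pow_right (by omega) hk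
      · exact Nat.pow_le_pow_left hM1 k
    calc p ^ M ^ k * M ^ k ≤ 2 ^ ((p + 1) * M ^ k) := h1
      _ ≤ 2 ^ (((p + 1) * (13 * K) * n) ^ k) := Nat.pow_le_pow_right (by norm_num) h2
      _ = 1 * 2 ^ (((p + 1) * (13 * K) * n) ^ k) := (one_mul _).symm
      _ ≤ (p + 1) * (13 * K) * 2 ^ (((p + 1) * (13 * K) * n) ^ k) := by
          apply Nat.mul_le_mul_right
          exact Nat.mul_pos (by omega) (by omega)

end Pool.Agent.Results.MP_3fb3e0_al.PrimeLamps
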